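import Pool.Agent.Helper17.SA.St5
import Pool.Agent.Helper60.SA.M_CH

/-!
# Project SA (MP_21f9f3_al), module CH5: series with good primes
-/

set_option autoImplicit false

open Equiv Pool.Agent.Helper17.SA
open scoped Pointwise

namespace Pool.Agent.Helper65.SA

open Pool.Agent.Helper64.SA Pool.Agent.Helper60.SA

theorem star_iso {G H : Type} [Group G] [Group H] [Finite G] [Finite H] (e : G ≃* H) (q : ℕ)
    (hq : q.Prime) (h : StarAt H q) : StarAt G q := by
  haveI : Fact q.Prime := ⟨hq⟩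
  obtain ⟨P, Q, hPQ⟩ := h
  refine ⟨pull e q P, pull e q Q, ?_⟩
  intro x hx
  rw [mem_iInf_iff e]
  apply hPQ
  rw [Subgroup.mem_inf] at hx ⊢
  rw [mem_pull, mem_pull] at hx
  exact hx

theorem star_of_sync {G : Type} [Group G] [Finite G] {ι : Type} (p : ι → ℕ)
    (hp : ∀ i, (p i).Prime) (h : SyncFor G p) (i : ι) : StarAt G (p i) := by
  haveI : Fact (p i).Prime := ⟨hp i⟩
  have P : ∀ j, Sylow (p j) G := fun j => Classical.choice inferInstance
  obtain ⟨x, hx⟩ := h P
  refine ⟨P i, MulAut.conj x⁻¹ • P i, ?_⟩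
  rw [← hx i]
  exact le_of_eq rfl

/-- the series `⊥ ≤ M` -/
def NN {G : Type} [Group G] (M : Subgroup G) : ℕ → Subgroup G
  | 0 => ⊥
  | _ + 1 => M

instance {G : Type} [Group G] (M : Subgroup G) [M.Normal] (j : ℕ) : (NN M j).Normal := by
  cases j with
  | zero => exact (inferInstance : (⊥ : Subgroup G).Normal)
  | succ j => exact (inferInstance : M.Normal)

theorem step (hCH3 : StCH3) (G : Type) [Group G] [Finite G] (M : Subgroup G) [M.Normal]
    (ι : Type) [Finite ι] (p : ι → ℕ) (hp : ∀ i, (p i).Prime) (hinj : Function.Injective p)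
    (hc : (Group.IsNilpotent M ∧ ∀ i, StarAt G (p i)) ∨
      (∃ (Ω : Type) (_ : Finite Ω) (S : Ω → Type) (_ : ∀ ω, Group (S ω)),
        (∀ ω, IsSimpleGroup (S ω)) ∧ (∀ ω, ∃ a b : S ω, a * b ≠ b * a) ∧
        ((∀ ω, Ample (S ω)) ∨ ((∀ ω, Hit (S ω)) ∧ ∀ i, p i = 2 → StarAt G 2)) ∧
        Nonempty (M ≃* ∀ ω, S ω))) (hs : SyncFor (G ⧸ M) p) : SyncFor G p := by
  have hbot : G ⧸ (⊥ : Subgroup G) ≃* G := QuotientGroup.quotientBot
  have hinjm : Function.Injective (QuotientGroup.mk' (⊥ : Subgroup G)) := by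
    rw [← MonoidHom.ker_eq_bot_iff, QuotientGroup.ker_mk']
  let e : M ≃* M.map (QuotientGroup.mk' (⊥ : Subgroup G)) := M.equivMapOfInjective _ hinjm
  refine hCH3 G 1 (NN M) rfl (fun j hj => ?_) ι p hp hinj (fun j hj => ?_) hs
  · have : j = 0 := by omega
    subst this
    exact bot_le
  · have : j = 0 := by omega
    subst this
    rcases hc with ⟨hnil, hst⟩ | ⟨Ω, hΩ, S, hS, hsim, hnc, hamp, ⟨f⟩⟩
    · left
      refine ⟨?_, fun i => ?_⟩
      · exact (Group.isNilpotent_congr e).1 hnil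
      · exact star_iso hbot (p i) (hp i) (hst i)
    · right
      refine ⟨Ω, hΩ, S, hS, hsim, hnc, ?_, ⟨e.symm.trans f⟩⟩
      rcases hamp with h | ⟨h, h2⟩
      · exact Or.inl h
      · exact Or.inr ⟨h, fun i hi => star_iso hbot 2 Nat.prime_two (h2 i hi)⟩

theorem pCH5 : StCH3 → StLS2 → StCH5 := by
  intro hCH3 hLS2 G _ _ k N _ h0 hle ι _ p hp hinj hstep htop
  have key : ∀ m j, j + m = k → SyncFor (G ⧸ N j) p := by
    intro m
    induction m with
    | zero =>
      intro j hj
      rw [add_zero] at hj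
      subst hj
      exact htop
    | succ m ih =>
      intro j hj
      have hjk : j < k := by omega
      have hle' := hle j hjk
      have hnext := ih (j + 1) (by omega)
      have hn : ((N (j + 1)).map (QuotientGroup.mk' (N j))).Normal := inferInstance
      have hq : SyncFor ((G ⧸ N j) ⧸ (N (j + 1)).map (QuotientGroup.mk' (N j))) p :=
        sync_iso (QuotientGroup.quotientQuotientEquivQuotient (N j) (N (j + 1)) hle').symm
          p hp hnext
      refine step hCH3 (G ⧸ N j) ((N (j + 1)).map (QuotientGroup.mk' (N j))) ι p hp hinj ?_ hq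
      rcases hstep j hjk with ⟨hnil, hst⟩ | h
      · left
        refine ⟨hnil, fun i => ?_⟩
        rcases hst i with h | ⟨h2, h3⟩
        · exact h
        · exact hLS2 (G ⧸ N j) ((N (j + 1)).map (QuotientGroup.mk' (N j))) (p i) (hp i)
            inferInstance h2 h3 (star_of_sync p hp hq i)
      · right
        exact h
  have h1 := key k 0 (Nat.zero_add k)
  exact sync_iso ((QuotientGroup.quotientMulEquivOfEq h0).trans QuotientGroup.quotientBot) p hp h1

end Pool.Agent.Helper65.SA
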